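import Pool.Agent.W845.TR.Base
import Pool.Agent.W845.TR.Stmts

set_option autoImplicit false
open scoped BigOperators

/-!
TR-CG: coarse graining.
-/

namespace Pool.Agent.W135.TR

open Pool.Agent.W845.TR

variable {d : ℕ}

theorem mem_eb {W : Finset (S d)} {x : S d} {j : Fin d} :
    (x, j) ∈ eb W ↔ ¬ (x ∈ W ↔ x + ue j ∈ W) := by
  unfold eb
  rw [Finset.mem_filter, Finset.mem_product, Finset.mem_union, Finset.mem_biUnion]
  constructor
  · exact fun h => h.2
  · intro h
    refine ⟨⟨?_, Finset.mem_univ _⟩, h⟩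
    by_cases hx : x ∈ W
    · exact Or.inl hx
    · right
      have h2 : x + ue j ∈ W := by
        by_contra hc
        exact h ⟨fun h1 => absurd h1 hx, fun h1 => absurd h1 hc⟩
      exact ⟨x + ue j, h2, mem_nb.2 (adj_symm (adj_add_ue x j))⟩

theorem ediv_key (k : ℕ) (a b : ℤ) :
    (2 ^ k * b ≤ a ∧ a ≤ 2 ^ k * b + (2 ^ k - 1)) ↔ a / 2 ^ k = b := by
  have hn : (0:ℤ) < 2 ^ k := by positivity
  have h1 : b ≤ a / 2 ^ k ↔ b * 2 ^ k ≤ a := Int.le_ediv_iff_mul_le hn
  have h2 : a / 2 ^ k < b + 1 ↔ a < (b + 1) * 2 ^ k := Int.ediv_lt_iff_lt_mul hn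
  have e : (b + 1) * 2 ^ k = 2 ^ k * b + 2 ^ k := by ring
  rw [e] at h2
  rw [mul_comm b] at h1
  generalize hA : (2:ℤ) ^ k * b = A at *
  generalize hB : (2:ℤ) ^ k = N at *
  constructor
  · rintro ⟨h3, h4⟩
    have h5 := h1.2 h3
    have h6 := h2.2 (by omega)
    omega
  · intro h
    have h5 := h1.1 h.ge
    have h6 := h2.1 (by omega)
    constructor <;> omega

theorem mem_cub {k : ℕ} {z x : S d} : x ∈ cub k z ↔ cidx k x = z := by
  unfold cub cidx
  rw [Finset.mem_Icc]
  constructor
  · rintro ⟨h1, h2⟩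
    funext i
    exact (ediv_key k _ _).1 ⟨h1 i, h2 i⟩
  · intro h
    exact ⟨fun i => ((ediv_key k _ _).2 (congrFun h i)).1,
      fun i => ((ediv_key k _ _).2 (congrFun h i)).2⟩

theorem card_cub (k : ℕ) (z : S d) : (cub k z).card = 2 ^ (k * d) := by
  unfold cub
  rw [Pi.card_Icc]
  have h : ∀ i : Fin d, (Finset.Icc (2 ^ k * z i) (2 ^ k * z i + (2 ^ k - 1))).card = 2 ^ k := by
    intro i
    rw [Int.card_Icc]
    have e : 2 ^ k * z i + (2 ^ k - 1) + 1 - 2 ^ k * z i = ((2 ^ k : ℕ) : ℤ) := by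
      push_cast; ring
    rw [e, Int.toNat_natCast]
  rw [Finset.prod_congr rfl fun i _ => h i]
  simp [pow_mul]

theorem mem_cgi {k : ℕ} {W : Finset (S d)} {z : S d} :
    z ∈ cgi k W ↔ 2 ^ (k * d) < 2 * (W ∩ cub k z).card := by
  unfold cgi
  rw [Finset.mem_filter]
  constructor
  · exact fun h => h.2
  · intro h
    refine ⟨?_, h⟩
    have h1 : 0 < (W ∩ cub k z).card := by
      have : 0 < 2 ^ (k * d) := by positivity
      omega
    obtain ⟨x, hx⟩ := Finset.card_pos.1 h1
    rw [Finset.mem_inter] at hx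
    exact Finset.mem_image.2 ⟨x, hx.1, mem_cub.1 hx.2⟩

theorem mem_cg {k : ℕ} {W : Finset (S d)} {x : S d} : x ∈ cg k W ↔ cidx k x ∈ cgi k W := by
  unfold cg
  rw [Finset.mem_biUnion]
  constructor
  · rintro ⟨z, hz, hx⟩
    rw [mem_cub] at hx
    rw [hx]
    exact hz
  · intro h
    exact ⟨_, h, mem_cub.2 rfl⟩

/-- The two cubes. -/
noncomputable def bx (k : ℕ) (z : S d) (j : Fin d) : Finset (S d) :=
  Finset.Icc (fun i => 2 ^ k * z i) (fun i => 2 ^ k * z i + (2 ^ k - 1) + if i = j then 2 ^ k else 0)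

theorem mem_bx {k : ℕ} {z : S d} {j : Fin d} {x : S d} :
    x ∈ bx k z j ↔ x ∈ cub k z ∨ x ∈ cub k (z + ue j) := by
  have hn : (0:ℤ) < 2 ^ k := by positivity
  unfold bx cub
  simp only [Finset.mem_Icc, Pi.le_def]
  constructor
  · rintro ⟨h1, h2⟩
    by_cases hj : x j ≤ 2 ^ k * z j + (2 ^ k - 1)
    · left
      refine ⟨h1, fun i => ?_⟩
      by_cases hi : i = j
      · subst hi; exact hj
      · have := h2 i
        rw [if_neg hi] at this
        linarith
    · right
      refine ⟨fun i => ?_, fun i => ?_⟩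
      · by_cases hi : i = j
        · subst hi
          simp only [ue, Pi.add_apply, Pi.single_eq_same]
          linarith
        · simp only [ue, Pi.add_apply, Pi.single_eq_of_ne hi, add_zero]
          exact h1 i
      · by_cases hi : i = j
        · subst hi
          have := h2 i
          rw [if_pos rfl] at this
          simp only [ue, Pi.add_apply, Pi.single_eq_same]
          linarith
        · have := h2 i
          rw [if_neg hi] at this
          simp only [ue, Pi.add_apply, Pi.single_eq_of_ne hi, add_zero]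
          linarith
  · rintro (⟨h1, h2⟩ | ⟨h1, h2⟩)
    · refine ⟨h1, fun i => (h2 i).trans ?_⟩
      split_ifs <;> linarith
    · refine ⟨fun i => ?_, fun i => ?_⟩
      · refine le_trans ?_ (h1 i)
        by_cases hi : i = j
        · subst hi
          simp only [ue, Pi.add_apply, Pi.single_eq_same]
          linarith
        · simp only [ue, Pi.add_apply, Pi.single_eq_of_ne hi, add_zero]
          exact le_rfl
      · refine (h2 i).trans ?_
        by_cases hi : i = j
        · subst hi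
          simp only [ue, Pi.add_apply, Pi.single_eq_same, if_true]
          linarith
        · simp only [ue, Pi.add_apply, Pi.single_eq_of_ne hi, add_zero, if_neg hi]
          exact le_rfl

/-- The edges inside two neighbouring cubes. -/
noncomputable def EB (k : ℕ) (W : Finset (S d)) (z : S d) (j : Fin d) : Finset (S d × Fin d) :=
  (eb W).filter (fun e => e.1 ∈ bx k z j ∧ e.1 + ue e.2 ∈ bx k z j)

theorem powd {d k : ℕ} (hd : 1 ≤ d) : 2 ^ (k * d) = 2 ^ (k * (d - 1)) * 2 ^ k := by
  obtain ⟨m, rfl⟩ : ∃ m, d = m + 1 := ⟨d - 1, by omega⟩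
  rw [Nat.add_sub_cancel, ← pow_add]
  congr 1

theorem big (hI : St_ISO) (hd : 1 ≤ d) (k : ℕ) (W : Finset (S d)) (z : S d) (j : Fin d)
    (h : (z, j) ∈ eb (cgi k W)) : 2 ^ (k * (d - 1)) ≤ 16 * (EB k W z j).card := by
  have hiso := hI d (fun i => 2 ^ k * z i)
    (fun i => 2 ^ k * z i + (2 ^ k - 1) + if i = j then 2 ^ k else 0) (2 * 2 ^ k) W (by
      intro i
      have hn : (0:ℤ) < 2 ^ k := by positivity
      push_cast
      split_ifs <;> linarith)
  have hiso' : (W ∩ bx k z j).card * (bx k z j \ W).card ≤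
      2 * 2 ^ k * (bx k z j).card * (EB k W z j).card := hiso
  have hB : bx k z j = cub k z ∪ cub k (z + ue j) := by
    ext x
    rw [Finset.mem_union, mem_bx]
  have hcB : (bx k z j).card ≤ 2 * 2 ^ (k * d) := by
    rw [hB]
    refine (Finset.card_union_le _ _).trans ?_
    rw [card_cub, card_cub]
    omega
  have hs1 : cub k z ⊆ bx k z j := by rw [hB]; exact Finset.subset_union_left
  have hs2 : cub k (z + ue j) ⊆ bx k z j := by rw [hB]; exact Finset.subset_union_right
  have hlow : ∀ y, y ∈ cgi k W → cub k y ⊆ bx k z j → 2 ^ (k * d) ≤ 2 * (W ∩ bx k z j).card := by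
    intro y hy hs
    have h1 := mem_cgi.1 hy
    have h2 := Finset.card_le_card (Finset.inter_subset_inter (Finset.Subset.refl W) hs)
    omega
  have hlow2 : ∀ y, y ∉ cgi k W → cub k y ⊆ bx k z j → 2 ^ (k * d) ≤ 2 * (bx k z j \ W).card := by
    intro y hy hs
    rw [mem_cgi] at hy
    have h2 := Finset.card_le_card (Finset.sdiff_subset_sdiff hs (Finset.Subset.refl W))
    have h3 := Finset.card_sdiff_add_card_inter (cub k y) W
    rw [card_cub, Finset.inter_comm] at h3
    omega
  rw [mem_eb] at h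
  have h12 : 2 ^ (k * d) ≤ 2 * (W ∩ bx k z j).card ∧ 2 ^ (k * d) ≤ 2 * (bx k z j \ W).card := by
    by_cases hz : z ∈ cgi k W
    · have hz' : z + ue j ∉ cgi k W := fun h' => h ⟨fun _ => h', fun _ => hz⟩
      exact ⟨hlow z hz hs1, hlow2 _ hz' hs2⟩
    · have hz' : z + ue j ∈ cgi k W := by
        by_contra h'
        exact h ⟨fun h'' => absurd h'' hz, fun h'' => absurd h'' h'⟩
      exact ⟨hlow _ hz' hs2, hlow2 _ hz hs1⟩
  obtain ⟨h1, h2⟩ := h12
  set Q := 2 ^ (k * d) with hQ
  have hQpos : 0 < Q := by positivity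
  set E := (EB k W z j).card
  have h3 : Q * Q ≤ Q * (16 * 2 ^ k * E) := by
    calc Q * Q ≤ (2 * (W ∩ bx k z j).card) * (2 * (bx k z j \ W).card) := Nat.mul_le_mul h1 h2
      _ = 4 * ((W ∩ bx k z j).card * (bx k z j \ W).card) := by ring
      _ ≤ 4 * (2 * 2 ^ k * (bx k z j).card * E) := Nat.mul_le_mul_left _ hiso'
      _ ≤ 4 * (2 * 2 ^ k * (2 * Q) * E) := by gcongr
      _ = Q * (16 * 2 ^ k * E) := by ring
  have h4 : Q ≤ 16 * 2 ^ k * E := Nat.le_of_mul_le_mul_left h3 hQpos
  rw [hQ, powd hd] at h4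
  have h5 : 2 ^ k * 2 ^ (k * (d - 1)) ≤ 2 ^ k * (16 * E) := by
    calc 2 ^ k * 2 ^ (k * (d - 1)) = 2 ^ (k * (d - 1)) * 2 ^ k := mul_comm _ _
      _ ≤ 16 * 2 ^ k * E := h4
      _ = 2 ^ k * (16 * E) := by ring
  exact Nat.le_of_mul_le_mul_left h5 (by positivity)

/-- Item 2. -/
theorem item2 (hI : St_ISO) (hd : 1 ≤ d) (k : ℕ) (W : Finset (S d)) :
    (eb (cgi k W)).card * 2 ^ (k * (d - 1)) ≤ 32 * d * (eb W).card := by
  have h1 : (eb (cgi k W)).card * 2 ^ (k * (d - 1)) ≤
      ∑ e ∈ eb (cgi k W), 16 * (EB k W e.1 e.2).card := by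
    rw [← smul_eq_mul, ← Finset.sum_const]
    exact Finset.sum_le_sum fun e he => big hI hd k W e.1 e.2 he
  refine h1.trans ?_
  rw [← Finset.mul_sum]
  have h2 : ∑ e ∈ eb (cgi k W), (EB k W e.1 e.2).card ≤ ∑ f ∈ eb W, 2 * d := by
    have e1 : ∀ e : S d × Fin d, (EB k W e.1 e.2).card =
        ∑ f ∈ eb W, if (f.1 ∈ bx k e.1 e.2 ∧ f.1 + ue f.2 ∈ bx k e.1 e.2) then 1 else 0 := by
      intro e
      unfold EB
      rw [Finset.card_filter]
    simp_rw [e1]
    rw [Finset.sum_comm]
    refine Finset.sum_le_sum fun f _ => ?_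
    rw [← Finset.card_filter]
    have hsub : (eb (cgi k W)).filter
        (fun e => f.1 ∈ bx k e.1 e.2 ∧ f.1 + ue f.2 ∈ bx k e.1 e.2) ⊆
        (Finset.univ.image fun j : Fin d => (cidx k f.1, j)) ∪
        (Finset.univ.image fun j : Fin d => (cidx k f.1 - ue j, j)) := by
      intro e he
      rw [Finset.mem_filter, mem_bx, mem_cub, mem_cub] at he
      rw [Finset.mem_union, Finset.mem_image, Finset.mem_image]
      rcases he.2.1 with h | h
      · exact Or.inl ⟨e.2, Finset.mem_univ _, Prod.ext h rfl⟩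
      · refine Or.inr ⟨e.2, Finset.mem_univ _, Prod.ext ?_ rfl⟩
        show cidx k f.1 - ue e.2 = e.1
        rw [h, add_sub_cancel_right]
    refine (Finset.card_le_card hsub).trans ((Finset.card_union_le _ _).trans ?_)
    have h3 := Finset.card_image_le (s := (Finset.univ : Finset (Fin d)))
      (f := fun j : Fin d => (cidx k f.1, j))
    have h4 := Finset.card_image_le (s := (Finset.univ : Finset (Fin d)))
      (f := fun j : Fin d => (cidx k f.1 - ue j, j))
    rw [Finset.card_univ, Fintype.card_fin] at h3 h4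
    omega
  rw [Finset.sum_const, smul_eq_mul] at h2
  calc 16 * ∑ e ∈ eb (cgi k W), (EB k W e.1 e.2).card ≤ 16 * ((eb W).card * (2 * d)) :=
        Nat.mul_le_mul_left _ h2
    _ = 32 * d * (eb W).card := by ring

/-- Item 1. -/
theorem item1 (hI : St_ISO) (k : ℕ) (W : Finset (S d)) :
    (symmDiff W (cg k W)).card ≤ 2 * 2 ^ k * (eb W).card := by
  set D := symmDiff W (cg k W) with hD
  set Z := D.image (cidx k) with hZ
  have hmem : ∀ x, x ∈ D ↔ ¬ (x ∈ W ↔ cidx k x ∈ cgi k W) := by
    intro x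
    rw [hD, Finset.mem_symmDiff, mem_cg]
    tauto
  have hfib : ∀ z ∈ Z, (D.filter fun x => cidx k x = z).card ≤
      2 * 2 ^ k * ((eb W).filter fun e => cidx k e.1 = z).card := by
    intro z _
    have hiso := hI d (fun i => 2 ^ k * z i) (fun i => 2 ^ k * z i + (2 ^ k - 1)) (2 ^ k) W (by
        intro i
        push_cast
        linarith)
    have hiso' : (W ∩ cub k z).card * (cub k z \ W).card ≤ 2 ^ k * (cub k z).card *
        ((eb W).filter (fun e => e.1 ∈ cub k z ∧ e.1 + ue e.2 ∈ cub k z)).card := hiso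
    have hE : ((eb W).filter (fun e => e.1 ∈ cub k z ∧ e.1 + ue e.2 ∈ cub k z)).card ≤
        ((eb W).filter fun e => cidx k e.1 = z).card := by
      refine Finset.card_le_card fun e he => ?_
      rw [Finset.mem_filter] at he ⊢
      exact ⟨he.1, mem_cub.1 he.2.1⟩
    rw [card_cub] at hiso'
    have h3 := Finset.card_sdiff_add_card_inter (cub k z) W
    rw [card_cub, Finset.inter_comm] at h3
    set Q := 2 ^ (k * d) with hQ
    have hQpos : 0 < Q := by positivity
    set E := ((eb W).filter (fun e => e.1 ∈ cub k z ∧ e.1 + ue e.2 ∈ cub k z)).card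
    set E' := ((eb W).filter fun e => cidx k e.1 = z).card
    by_cases hz : z ∈ cgi k W
    · have hf : (D.filter fun x => cidx k x = z) = cub k z \ W := by
        ext x
        rw [Finset.mem_filter, hmem, Finset.mem_sdiff, mem_cub]
        constructor
        · rintro ⟨h1, h2⟩
          rw [h2] at h1
          exact ⟨h2, fun hx => h1 ⟨fun _ => hz, fun _ => hx⟩⟩
        · rintro ⟨h1, h2⟩
          refine ⟨fun h => h2 (h.2 ?_), h1⟩
          rw [h1]; exact hz
      rw [hf]
      have h4 := mem_cgi.1 hz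
      rw [← hQ] at h4
      have h5 : Q * (cub k z \ W).card ≤ Q * (2 * 2 ^ k * E) := by
        calc Q * (cub k z \ W).card ≤ (2 * (W ∩ cub k z).card) * (cub k z \ W).card :=
              Nat.mul_le_mul_right _ h4.le
          _ = 2 * ((W ∩ cub k z).card * (cub k z \ W).card) := by ring
          _ ≤ 2 * (2 ^ k * Q * E) := Nat.mul_le_mul_left _ hiso'
          _ = Q * (2 * 2 ^ k * E) := by ring
      exact (Nat.le_of_mul_le_mul_left h5 hQpos).trans (Nat.mul_le_mul_left _ hE)
    · have hf : (D.filter fun x => cidx k x = z) = W ∩ cub k z := by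
        ext x
        rw [Finset.mem_filter, hmem, Finset.mem_inter, mem_cub]
        constructor
        · rintro ⟨h1, h2⟩
          rw [h2] at h1
          refine ⟨?_, h2⟩
          by_contra hx
          exact h1 ⟨fun h => absurd h hx, fun h => absurd h hz⟩
        · rintro ⟨h1, h2⟩
          refine ⟨fun h => hz ?_, h2⟩
          rw [← h2]
          exact h.1 h1
      rw [hf]
      rw [mem_cgi, ← hQ] at hz
      have h6 : Q ≤ 2 * (cub k z \ W).card := by omega
      have h5 : Q * (W ∩ cub k z).card ≤ Q * (2 * 2 ^ k * E) := by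
        calc Q * (W ∩ cub k z).card ≤ (2 * (cub k z \ W).card) * (W ∩ cub k z).card :=
              Nat.mul_le_mul_right _ h6
          _ = 2 * ((W ∩ cub k z).card * (cub k z \ W).card) := by ring
          _ ≤ 2 * (2 ^ k * Q * E) := Nat.mul_le_mul_left _ hiso'
          _ = Q * (2 * 2 ^ k * E) := by ring
      exact (Nat.le_of_mul_le_mul_left h5 hQpos).trans (Nat.mul_le_mul_left _ hE)
  calc D.card = ∑ z ∈ Z, (D.filter fun x => cidx k x = z).card := by
        rw [hZ]
        exact Finset.card_eq_sum_card_image _ _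
    _ ≤ ∑ z ∈ Z, 2 * 2 ^ k * ((eb W).filter fun e => cidx k e.1 = z).card :=
        Finset.sum_le_sum hfib
    _ = 2 * 2 ^ k * ∑ z ∈ Z, ((eb W).filter fun e => cidx k e.1 = z).card := by
        rw [Finset.mul_sum]
    _ ≤ 2 * 2 ^ k * (eb W).card := by
        refine Nat.mul_le_mul_left _ ?_
        rw [Finset.sum_card_fiberwise_eq_card_filter]
        exact Finset.card_filter_le _ _

/-- The index of a neighbour. -/
theorem cidx_add (k : ℕ) (x : S d) (j : Fin d) (h : cidx k (x + ue j) ≠ cidx k x) :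
    cidx k (x + ue j) = cidx k x + ue j ∧ x j = 2 ^ k * cidx k x j + (2 ^ k - 1) := by
  have hn : (0:ℤ) < 2 ^ k := by positivity
  have hoff : ∀ i, i ≠ j → cidx k (x + ue j) i = cidx k x i := by
    intro i hi
    simp [cidx, ue, hi]
  have h1 := (ediv_key k (x j) (cidx k x j)).2 rfl
  have h2 : x j = 2 ^ k * cidx k x j + (2 ^ k - 1) := by
    by_contra hc
    apply h
    funext i
    by_cases hi : i = j
    · subst hi
      have h3 : (x + ue i) i = x i + 1 := by simp [ue]
      show (x + ue i) i / 2 ^ k = cidx k x i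
      rw [h3]
      refine (ediv_key k _ _).1 ⟨by linarith, ?_⟩
      have h4 : x i < 2 ^ k * cidx k x i + (2 ^ k - 1) := lt_of_le_of_ne h1.2 hc
      linarith
    · exact hoff i hi
  refine ⟨?_, h2⟩
  funext i
  by_cases hi : i = j
  · subst hi
    have h3 : (x + ue i) i = x i + 1 := by simp [ue]
    have h5 : (cidx k x + ue i) i = cidx k x i + 1 := by simp [ue]
    show (x + ue i) i / 2 ^ k = (cidx k x + ue i) i
    rw [h3, h5]
    refine (ediv_key k _ _).1 ⟨?_, ?_⟩ <;> rw [h2] <;> linarith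
  · rw [hoff i hi]
    simp [ue, hi]

/-- Item 3. -/
theorem item3a (k : ℕ) (W : Finset (S d)) :
    (eb (cg k W)).card ≤ 2 ^ (k * (d - 1)) * (eb (cgi k W)).card := by
  have hkey : ∀ e ∈ eb (cg k W), (cidx k e.1, e.2) ∈ eb (cgi k W) ∧
      e.1 e.2 = 2 ^ k * cidx k e.1 e.2 + (2 ^ k - 1) := by
    rintro ⟨x, j⟩ he
    rw [mem_eb, mem_cg, mem_cg] at he
    have hne : cidx k (x + ue j) ≠ cidx k x := by
      intro hc
      rw [hc] at he
      exact he Iff.rfl
    obtain ⟨h1, h2⟩ := cidx_add k x j hne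
    rw [h1] at he
    exact ⟨mem_eb.2 he, h2⟩
  refine Finset.card_le_mul_card_image_of_maps_to (f := fun e : S d × Fin d => (cidx k e.1, e.2))
    (fun e he => (hkey e he).1) _ ?_
  rintro ⟨z, j⟩ _
  have hsub : (eb (cg k W)).filter (fun e => (cidx k e.1, e.2) = (z, j)) ⊆
      (Finset.Icc (Function.update (fun i => 2 ^ k * z i) j (2 ^ k * z j + (2 ^ k - 1)))
        (fun i => 2 ^ k * z i + (2 ^ k - 1))).image (fun x : S d => (x, j)) := by
    rintro ⟨x, i⟩ hx
    rw [Finset.mem_filter] at hx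
    obtain ⟨hx1, hx2⟩ := hx
    have hz : cidx k x = z := congrArg Prod.fst hx2
    have hj : i = j := congrArg Prod.snd hx2
    subst hj
    have h3 := (hkey _ hx1).2
    simp only at h3
    rw [hz] at h3
    rw [Finset.mem_image]
    refine ⟨x, ?_, rfl⟩
    have h4 := mem_cub.2 hz
    unfold cub at h4
    rw [Finset.mem_Icc] at h4 ⊢
    refine ⟨fun l => ?_, h4.2⟩
    by_cases hl : l = i
    · subst hl
      rw [Function.update_self]
      exact h3.ge
    · rw [Function.update_of_ne hl]
      exact h4.1 l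
  refine (Finset.card_le_card hsub).trans (Finset.card_image_le.trans ?_)
  rw [Pi.card_Icc, ← Finset.mul_prod_erase _ _ (Finset.mem_univ j)]
  rw [Function.update_self]
  have e1 : (Finset.Icc (2 ^ k * z j + (2 ^ k - 1)) (2 ^ k * z j + (2 ^ k - 1))).card = 1 := by
    simp
  have e2 : ∀ i ∈ Finset.univ.erase j, (Finset.Icc
      (Function.update (fun i => 2 ^ k * z i) j (2 ^ k * z j + (2 ^ k - 1)) i)
        (2 ^ k * z i + (2 ^ k - 1))).card = 2 ^ k := by
    intro i hi
    rw [Function.update_of_ne (Finset.ne_of_mem_erase hi), Int.card_Icc]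
    have e : 2 ^ k * z i + (2 ^ k - 1) + 1 - 2 ^ k * z i = ((2 ^ k : ℕ) : ℤ) := by
      push_cast; ring
    rw [e, Int.toNat_natCast]
  rw [e1, Finset.prod_congr rfl e2, Finset.prod_const, Finset.card_erase_of_mem (Finset.mem_univ j),
    Finset.card_univ, Fintype.card_fin, one_mul, ← pow_mul]

/-- TR-CG. -/
theorem cgt : St_ISO → St_CG := by
  intro hI d hd k W
  refine ⟨item1 hI k W, item2 hI hd k W, ?_, ?_, ?_, ?_, ?_⟩
  · refine (item3a k W).trans ?_
    rw [mul_comm]
    exact item2 hI hd k W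
  · rintro ⟨z, j⟩ he
    have h1 := big hI hd k W z j he
    have h2 : 0 < (EB k W z j).card := by
      have : 0 < 2 ^ (k * (d - 1)) := by positivity
      omega
    obtain ⟨f, hf⟩ := Finset.card_pos.1 h2
    unfold EB at hf
    rw [Finset.mem_filter] at hf
    refine ⟨f, hf.1, ?_⟩
    have h3 := hf.2.1
    unfold bx at h3
    rw [Finset.mem_Icc] at h3
    have hn : (0:ℤ) < 2 ^ k := by positivity
    unfold l1
    have h4 : ∀ i ∈ (Finset.univ : Finset (Fin d)), |f.1 i - 2 ^ k * z i| ≤
        2 ^ k + if i = j then 2 ^ k else 0 := by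
      intro i _
      have a1 := h3.1 i
      have a2 := h3.2 i
      simp only at a1 a2
      rw [abs_of_nonneg (by linarith)]
      linarith
    refine (Finset.sum_le_sum h4).trans ?_
    rw [Finset.sum_add_distrib, Finset.sum_const, Finset.sum_ite_eq', if_pos (Finset.mem_univ j),
      Finset.card_univ, Fintype.card_fin, nsmul_eq_mul]
    have hd' : (1:ℤ) ≤ d := by exact_mod_cast hd
    nlinarith
  · intro hgt
    have h1 := item2 hI hd k W
    have h2 : (eb (cgi k W)).card = 0 := by
      by_contra hc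
      have h3 : 1 ≤ (eb (cgi k W)).card := Nat.one_le_iff_ne_zero.2 hc
      have h4 : 1 * 2 ^ (k * (d - 1)) ≤ (eb (cgi k W)).card * 2 ^ (k * (d - 1)) :=
        Nat.mul_le_mul_right _ h3
      omega
    rw [Finset.card_eq_zero] at h2
    by_contra hne
    obtain ⟨x, hx, hmax⟩ := Finset.exists_max_image (cgi k W) (fun x : S d => x ⟨0, by omega⟩)
      (Finset.nonempty_iff_ne_empty.2 hne)
    have h5 : (x, (⟨0, by omega⟩ : Fin d)) ∈ eb (cgi k W) := by
      rw [mem_eb]
      intro h
      have h6 := hmax _ (h.1 hx)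
      simp [ue] at h6
    rw [h2] at h5
    exact absurd h5 (Finset.notMem_empty _)
  · ext z
    rw [mem_cgi]
    have hc : cub 0 z = {z} := by
      ext x
      rw [mem_cub, Finset.mem_singleton]
      constructor
      · intro h; rw [← h]; funext i; simp [cidx]
      · intro h; rw [h]; funext i; simp [cidx]
    rw [hc]
    by_cases hz : z ∈ W
    · rw [Finset.inter_singleton_of_mem hz]
      simp [hz]
    · rw [Finset.inter_singleton_of_notMem hz]
      simp [hz]
  · ext x
    rw [mem_cg, mem_cgi]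
    have hx0 : cidx 0 x = x := by funext i; simp [cidx]
    rw [hx0]
    have hc : cub 0 x = {x} := by
      ext y
      rw [mem_cub, Finset.mem_singleton]
      constructor
      · intro h; rw [← h]; funext i; simp [cidx]
      · intro h; rw [h]; funext i; simp [cidx]
    rw [hc]
    by_cases hz : x ∈ W
    · rw [Finset.inter_singleton_of_mem hz]
      simp [hz]
    · rw [Finset.inter_singleton_of_notMem hz]
      simp [hz]

end Pool.Agent.W135.TR
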